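import Pool.Agent.Results.MP_28b04d_gt.MeanOscillation
import Pool.Agent.Run7.h7.AvgCount

/-!
# MP_0eed2b_gt, Q1: an explicit bound for the number of isotopy classes of diffeomorphisms of the ball
with bounded distortion

Q1 asks whether `Diff⁺(S⁴)` is connected; equivalently, whether the group of isotopy classes of
diffeomorphisms of the ball `D⁴` rel boundary, that is of diffeomorphisms of `ℝ⁴` with compact support, is
trivial.  (For `n ≠ 4` the corresponding group is finite; for `n = 4` nothing is known but that it is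
countable.)  The theorem bounds explicitly the number of classes which are represented by diffeomorphisms
`φ` of `ℝⁿ` (Q1: `n = 4`) with support in the unit ball and with bounded complexity.

1. Let `‖(Dφ)⁻¹‖ ≤ M`, and let the mean oscillation of `Dφ` be at most `θ` on all balls of radius at most
  `r₀`, where `M θ < 1`.  If `A ≥ M / (r₀ (1 - M θ))` is a natural number, such `φ` represent at most
  `(24 n² A + 1) ^ (n (6936 n⁴ A² + 1) ^ n)` isotopy classes.  No bound for `‖Dφ‖` is assumed.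
2. The `φ` with `‖(Dφ)⁻¹‖ ≤ B` and `‖D²φ‖ ≤ B / 2ⁿ⁺²`, where `B ≥ 1` is a natural number, represent at
  most `(48 n² B³ + 1) ^ (n (27744 n⁴ B⁶ + 1) ^ n)` isotopy classes.
3. Every diffeomorphism with compact support satisfies the conditions of part 2 for some `B`.
4. Slowly growing powers.  Let `b` be the bound of part 2.  If the powers `φ, φ², …, φᵇ⁺¹` of `φ` all satisfy
  the conditions of part 2, then `φᵏ` is isotopic to the identity for some `1 ≤ k ≤ b`, so that the class of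
  `φ` has finite order.
-/

set_option autoImplicit false

open MeasureTheory Metric Function Set
open scoped ContDiff

noncomputable section

namespace Pool.Agent.Results.MP_0eed2b_gt.CountingClasses

open Pool.Agent.Results.MP_28b04d_gt.MeanOscillation (R IsDiffeo InverseBound Admissible SupportedIn
  secondNorm)

variable {n : ℕ}

/-- `φ` and `ψ` are joined by a smooth path of diffeomorphisms with common compact support -/
def Isotopic (φ ψ : R n → R n) : Prop :=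
  ∃ (F : ℝ × R n → R n) (ρ : ℝ), ContDiff ℝ ∞ F ∧ (∀ t x, ρ < ‖x‖ → F (t, x) = x) ∧
    (∀ t ∈ Icc (0 : ℝ) 1, IsDiffeo (fun x => F (t, x))) ∧ (∀ x, F (0, x) = φ x) ∧
    ∀ x, F (1, x) = ψ x

/-- the diffeomorphisms with support in the unit ball and with the property `P` represent at most `b`
isotopy classes -/
def AtMost (b : ℕ) (P : (R n → R n) → Prop) : Prop :=
  ∃ N : ℕ, N ≤ b ∧ ∃ Ψ : Fin N → R n → R n, (∀ i, IsDiffeo (Ψ i) ∧ SupportedIn 1 (Ψ i)) ∧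
    ∀ φ : R n → R n, IsDiffeo φ → SupportedIn 1 φ → P φ → ∃ i, Isotopic φ (Ψ i)

/-- `‖(Dφ)⁻¹‖ ≤ B` and `‖D²φ‖ ≤ B / 2ⁿ⁺²` -/
def Bounded (B : ℕ) (φ : R n → R n) : Prop :=
  InverseBound B φ ∧ ∀ x, 2 ^ (n + 2) * secondNorm φ x ≤ B

/-- the bound of part 2 -/
def bound (n B : ℕ) : ℕ := (48 * n ^ 2 * B ^ 3 + 1) ^ (n * (27744 * n ^ 4 * B ^ 6 + 1) ^ n)

open Pool.Agent.Results.MP_28b04d_gt.MeanOscillation (toC ofC toCls ofCls secondNorm_eq)

theorem isoC {φ ψ : R n → R n} (h : Run7.h7.Avg.IsotopicC φ ψ) : Isotopic φ ψ := by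
  obtain ⟨F, ρ, h1, h2, h3, h4, h5⟩ := h
  exact ⟨F, ρ, h1, h2, fun t ht => ofC (h3 t ht), h4, h5⟩

theorem first (hn : n ≠ 0) {A : ℕ} {M θ r₀ : ℝ} (hM : 0 ≤ M) (hr : 0 < r₀) (hθ : M * θ < 1)
    (hA : M ≤ A * (r₀ * (1 - M * θ))) :
    AtMost ((24 * n ^ 2 * A + 1) ^ (n * (6936 * n ^ 4 * A ^ 2 + 1) ^ n))
      (Admissible (n := n) M θ r₀) := by
  obtain ⟨N, hN, Ψ, h1, h2⟩ := Run7.h7.Avg.count hn hM hr hθ hA
  refine ⟨N, hN, Ψ, fun i => ⟨ofC (h1 i).1.diff, (h1 i).2⟩, fun φ _ hs hφ => ?_⟩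
  obtain ⟨i, hi⟩ := h2 φ (toCls hφ) hs
  exact ⟨i, isoC hi⟩

theorem second (hn : n ≠ 0) {B : ℕ} (hB : 1 ≤ B) :
    AtMost (bound n B) (Bounded (n := n) B) := by
  have hB1 : (1 : ℝ) ≤ B := by exact_mod_cast hB
  have hB0 : (0 : ℝ) < B := by linarith
  have hq : (B : ℝ) * (1 / (2 * B)) = 1 / 2 := by field_simp
  have h0 := first (n := n) hn (A := 2 * B ^ 3) (M := B) (θ := 1 / (2 * B)) (r₀ := 1 / (B : ℝ) ^ 2)
    hB0.le (by positivity) (by rw [hq]; norm_num) (by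
      rw [hq]
      push_cast
      refine le_of_eq ?_
      field_simp
      ring)
  have e1 : 24 * n ^ 2 * (2 * B ^ 3) + 1 = 48 * n ^ 2 * B ^ 3 + 1 := by ring
  have e2 : 6936 * n ^ 4 * (2 * B ^ 3) ^ 2 + 1 = 27744 * n ^ 4 * B ^ 6 + 1 := by ring
  rw [e1, e2] at h0
  obtain ⟨N, hN, Ψ, h1, h2⟩ := h0
  refine ⟨N, hN, Ψ, h1, fun φ hφ hs hb => h2 φ hφ hs (ofCls ?_)⟩
  refine Run7.h7.Avg.cls_of_second hB (toC hφ) hb.1 fun x => ?_
  rw [← secondNorm_eq]
  exact hb.2 x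

theorem iterate_isDiffeo {φ : R n → R n} (hφ : IsDiffeo φ) (k : ℕ) : IsDiffeo φ^[k] := by
  obtain ⟨g, g1, g2, g3⟩ := hφ.inverse
  obtain ⟨ρ, hρ⟩ := hφ.support
  refine ⟨Run7.h7.Avg.iterate_smooth hφ.smooth k, ⟨g^[k], Run7.h7.Avg.iterate_smooth g1 k,
    g2.iterate k, g3.iterate k⟩, ρ, fun x hx => ?_⟩
  induction k with
  | zero => rfl
  | succ k ih => rw [Function.iterate_succ, comp_apply, hρ x hx, ih]

theorem fourth (hn : n ≠ 0) {B : ℕ} (hB : 1 ≤ B) {φ : R n → R n} (hφ : IsDiffeo φ)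
    (hs : SupportedIn 1 φ) (hp : ∀ k, 1 ≤ k → k ≤ bound n B + 1 → Bounded B φ^[k]) :
    ∃ k, 1 ≤ k ∧ k ≤ bound n B ∧ Isotopic φ^[k] (fun x => x) := by
  have hB1 : (1 : ℝ) ≤ B := by exact_mod_cast hB
  have hB0 : (0 : ℝ) < B := by linarith
  have hq : (B : ℝ) * (1 / (2 * B)) = 1 / 2 := by field_simp
  have e1 : 24 * n ^ 2 * (2 * B ^ 3) + 1 = 48 * n ^ 2 * B ^ 3 + 1 := by ring
  have e2 : 6936 * n ^ 4 * (2 * B ^ 3) ^ 2 + 1 = 27744 * n ^ 4 * B ^ 6 + 1 := by ring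
  obtain ⟨k, h1, h2, h3⟩ := Run7.h7.Avg.torsion (n := n) hn (A := 2 * B ^ 3) (M := B)
    (θ := 1 / (2 * B)) (r₀ := 1 / (B : ℝ) ^ 2) hB0.le (by positivity) (by rw [hq]; norm_num) (by
      rw [hq]
      push_cast
      refine le_of_eq ?_
      field_simp
      ring) (b := bound n B) (by rw [e1, e2]; rfl) (toC hφ) hs (fun k h1 h2 =>
        Run7.h7.Avg.cls_of_second hB (toC (iterate_isDiffeo hφ k)) (hp k h1 h2).1 fun x => by
          rw [← secondNorm_eq]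
          exact (hp k h1 h2).2 x)
  exact ⟨k, h1, h2, isoC h3⟩

theorem third {φ : R n → R n} (hφ : IsDiffeo φ) : ∃ B : ℕ, 1 ≤ B ∧ Bounded B φ := by
  obtain ⟨B, h1, h2, h3⟩ := Run7.h7.Avg.exists_bounds (toC hφ)
  refine ⟨B, h1, h2, fun x => ?_⟩
  rw [secondNorm_eq]
  exact h3 x

/-- **An explicit bound for the number of isotopy classes of diffeomorphisms of the ball with bounded
distortion.** -/
theorem result (n : ℕ) (hn : n ≠ 0) :
    (∀ (A : ℕ) (M θ r₀ : ℝ), 0 ≤ M → 0 < r₀ → M * θ < 1 → M ≤ A * (r₀ * (1 - M * θ)) →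
      AtMost ((24 * n ^ 2 * A + 1) ^ (n * (6936 * n ^ 4 * A ^ 2 + 1) ^ n))
        (Admissible (n := n) M θ r₀)) ∧
    (∀ B : ℕ, 1 ≤ B → AtMost (bound n B) (Bounded (n := n) B)) ∧
    (∀ φ : R n → R n, IsDiffeo φ → ∃ B : ℕ, 1 ≤ B ∧ Bounded B φ) ∧
    ∀ B : ℕ, 1 ≤ B → ∀ φ : R n → R n, IsDiffeo φ → SupportedIn 1 φ →
      (∀ k, 1 ≤ k → k ≤ bound n B + 1 → Bounded B φ^[k]) →
      ∃ k, 1 ≤ k ∧ k ≤ bound n B ∧ Isotopic φ^[k] (fun x => x) :=
  ⟨fun _ _ _ _ h1 h2 h3 h4 => first hn h1 h2 h3 h4, fun _ hB => second hn hB, fun _ h => third h,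
    fun _ hB _ h1 h2 h3 => fourth hn hB h1 h2 h3⟩

end Pool.Agent.Results.MP_0eed2b_gt.CountingClasses
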