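import Pool.Agent.Results.MP_28b04d_gt.C1Isotopy
import Pool.Agent.Run7.h7.Alex

/-!
# MP_0eed2b_gt, Q1: isotopies of diffeomorphisms of the sphere and of the ball, and paths of
homeomorphisms with and without a singular point

Q1 asks whether every orientation preserving diffeomorphism of `S⁴` is smoothly isotopic to the
identity; equivalently, whether every diffeomorphism of the ball `D⁴` rel boundary is isotopic to the
identity rel boundary.  The theorem is on all spheres and balls of dimension `m + 1` (Q1: `m = 3`).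

* Sphere.  Two diffeomorphisms of the sphere are smoothly isotopic if and only if they are joined by a
  path `f_t` of homeomorphisms with the following property: near every `(t, x)` either `f` is of class
  `C^1` (in both variables) and the derivative of `f_t` at `x` has rank at least `m`, or `m` of the
  `m + 1` coordinates of `f` are of class `C^1` with independent derivatives in the direction of the
  sphere, while the last one is merely continuous.
* Ball.  The same for diffeomorphisms of the ball which are the identity near the boundary, and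
  isotopies and paths with this property.  Moreover such a path of homeomorphisms is (after a change
  of the time which makes it constant near both ends) a uniform limit of smooth isotopies.
* One singular point.  On the other hand every diffeomorphism `φ` of the ball rel boundary is joined with
  the identity by a path of diffeomorphisms rel boundary, continuous in both variables, which is of
  class `C^∞` in both variables near every `(t, x)` except for the one point `t = 0`, `x = 0`: this is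
  the path of Alexander, `f_t x = t φ (x / t)`.

So Q1 is the question whether one singular point can always be removed from such a path.
-/

set_option autoImplicit false

open Set Filter Topology Metric Function
open scoped Manifold ContDiff

noncomputable section

namespace Pool.Agent.Results.MP_0eed2b_gt.RoughIsotopies

open Pool.Agent.Results.MP_28b04d_gt.C1Isotopy (R rank der IsDiffeo C1CorankOne Family CoordinatesC1
  OverC1 C1ByFamily C1ByMap IsStep SmoothlyIsotopic)

/-! ### The sphere -/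

/-- the unit sphere of dimension `m + 1` -/
abbrev S (m : ℕ) : Type := sphere (0 : R (m + 1 + 1)) 1

instance (m : ℕ) : Fact (Module.finrank ℝ (R (m + 1 + 1)) = m + 1 + 1) := ⟨by simp⟩

/-- `f_t`, `0 ≤ t ≤ 1`, is a path of homeomorphisms of the sphere (continuous bijections, continuous
in both variables) from `φ` to `ψ` -/
def IsSpherePath (m : ℕ) (φ ψ : S m → S m) (f : ℝ × S m → S m) : Prop :=
  Continuous f ∧ (∀ t ∈ Icc (0 : ℝ) 1, Bijective (fun x => f (t, x))) ∧
    (∀ x, f (0, x) = φ x) ∧ ∀ x, f (1, x) = ψ x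

/-! ### The ball -/

/-- `φ` is a diffeomorphism of `ℝ^(m + 1)` which is the identity outside of the ball of radius `r` -/
def IsBallDiffeo (m : ℕ) (r : ℝ) (φ : R (m + 1) → R (m + 1)) : Prop :=
  ContDiff ℝ ∞ φ ∧ (∃ g : R (m + 1) → R (m + 1), ContDiff ℝ ∞ g ∧ LeftInverse g φ ∧
    RightInverse g φ) ∧ ∀ x, r < ‖x‖ → φ x = x

/-- `φ` is a diffeomorphism of the unit ball which is the identity near the boundary, extended by the
identity -/
def RelBoundary (m : ℕ) (φ : R (m + 1) → R (m + 1)) : Prop := ∃ r < 1, IsBallDiffeo m r φ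

/-- `K` is a smooth isotopy from `φ` to `ψ` through diffeomorphisms which are the identity outside of a
ball of radius less than one -/
def IsIsotopy (m : ℕ) (φ ψ : R (m + 1) → R (m + 1)) (K : ℝ × R (m + 1) → R (m + 1)) : Prop :=
  ContDiff ℝ ∞ K ∧ (∃ r < 1, ∀ t, IsBallDiffeo m r (fun x => K (t, x))) ∧
    (∀ x, K (0, x) = φ x) ∧ ∀ x, K (1, x) = ψ x

/-- `f_t`, `0 ≤ t ≤ 1`, is a path of homeomorphisms of the ball (continuous bijections, continuous in
both variables) from `φ` to `ψ`, which are the identity outside of the ball of radius `r` -/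
def IsBallPath (m : ℕ) (r : ℝ) (φ ψ : R (m + 1) → R (m + 1)) (f : ℝ × R (m + 1) → R (m + 1)) :
    Prop :=
  Continuous f ∧
    (∀ t ∈ Icc (0 : ℝ) 1, Bijective (fun x => f (t, x)) ∧ ∀ x, r < ‖x‖ → f (t, x) = x) ∧
    (∀ x, f (0, x) = φ x) ∧ ∀ x, f (1, x) = ψ x

/-- at the points `x` with `‖x‖ ≤ r`, at all times, `f` is of class `C^1` and of corank at most one, or
has `m` coordinates of class `C^1`, given by a member of a family of submersions -/
def BallByFamily (m : ℕ) (r : ℝ) (f : ℝ × R (m + 1) → R (m + 1)) : Prop :=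
  ∃ 𝓕 : Family m (R (m + 1)), ∀ t ∈ Icc (0 : ℝ) 1, ∀ x, ‖x‖ ≤ r →
    C1CorankOne m f t x ∨ CoordinatesC1 m 𝓕 f t x

/-- the same with the coordinates given by a map `q` to a smooth `m`-manifold `B` -/
def BallByMap (m : ℕ) (r : ℝ) (f : ℝ × R (m + 1) → R (m + 1)) : Prop :=
  ∃ (B : Type) (_ : TopologicalSpace B) (_ : ChartedSpace (R m) B) (_ : IsManifold (𝓡 m) ∞ B)
    (q : R (m + 1) → B), ∀ t ∈ Icc (0 : ℝ) 1, ∀ x, ‖x‖ ≤ r →
      C1CorankOne m f t x ∨ OverC1 m q f t x

/-! ### The statements -/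

/-- diffeomorphisms of the sphere are smoothly isotopic if and only if they are joined by a path of
homeomorphisms with the property -/
def Sphere (m : ℕ) : Prop :=
  ∀ φ ψ : S m → S m, IsDiffeo m φ → IsDiffeo m ψ →
    (SmoothlyIsotopic m φ ψ ↔ ∃ f, IsSpherePath m φ ψ f ∧ (C1ByFamily m f ∨ C1ByMap m f))

/-- diffeomorphisms of the ball rel boundary are smoothly isotopic rel boundary if and only if they are
joined by a path of homeomorphisms rel boundary with the property -/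
def Ball (m : ℕ) : Prop :=
  ∀ φ ψ : R (m + 1) → R (m + 1), RelBoundary m φ → RelBoundary m ψ →
    ((∃ K, IsIsotopy m φ ψ K) ↔
      ∃ r < 1, ∃ f, IsBallPath m r φ ψ f ∧ (BallByFamily m r f ∨ BallByMap m r f))

/-- these paths are uniform limits of smooth isotopies -/
def Limits (m : ℕ) : Prop :=
  ∀ φ ψ : R (m + 1) → R (m + 1), RelBoundary m φ → RelBoundary m ψ → ∀ r < 1, ∀ f,
    IsBallPath m r φ ψ f → (BallByFamily m r f ∨ BallByMap m r f) → ∀ θ : ℝ → ℝ, IsStep θ →
      ∀ ε : ℝ, 0 < ε → ∃ K, IsIsotopy m φ ψ K ∧ ∀ s x, ‖K (s, x) - f (θ s, x)‖ < ε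

/-- each diffeomorphism of the ball rel boundary is joined with the identity by a path of
diffeomorphisms rel boundary which is smooth in both variables except at the point `(0, 0)` -/
def OneSingularPoint (m : ℕ) : Prop :=
  ∀ φ : R (m + 1) → R (m + 1), RelBoundary m φ → ∃ r < 1, ∃ f,
    IsBallPath m r (fun x => x) φ f ∧ (∀ t ∈ Icc (0 : ℝ) 1, IsBallDiffeo m r (fun x => f (t, x))) ∧
      ∀ t ∈ Icc (0 : ℝ) 1, ∀ x, (t, x) ≠ (0, 0) → ContDiffAt ℝ ∞ f (t, x)

/-! ### Proofs -/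

theorem rank_diffeo {m : ℕ} {X Y : Type} [TopologicalSpace X] [ChartedSpace (R (m + 1)) X]
    [TopologicalSpace Y] [ChartedSpace (R (m + 1)) Y] {g : X → Y} (h : IsDiffeo m g) (x : X) :
    m ≤ rank (der m g x) := by
  obtain ⟨Φ, hΦ⟩ := h
  obtain rfl : (Φ : X → Y) = g := funext hΦ
  have h1 : LinearMap.range (der m Φ x).toLinearMap = ⊤ := by
    rw [LinearMap.range_eq_top]
    exact (Φ.mfderivToContinuousLinearEquiv (by simp) x).surjective
  unfold rank
  rw [h1, finrank_top]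
  simp

/-- the empty family -/
def noFamily (m : ℕ) (Y : Type) [TopologicalSpace Y] [ChartedSpace (R (m + 1)) Y] :
    Family m Y where
  Idx := Empty
  dom := fun j => j.elim
  map := fun j => j.elim
  isOpen_dom := fun j => j.elim
  submersion := fun j => j.elim
  compatible := fun j => j.elim

theorem sphere (m : ℕ) : Sphere m := by
  intro φ ψ hφ hψ
  constructor
  · rintro ⟨K, ⟨k1, k2⟩, k3, k4⟩
    refine ⟨K, ⟨k1.continuous, fun t _ => ?_, k3, k4⟩, Or.inl ⟨noFamily m (S m),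
      fun t _ x => Or.inl ⟨Filter.Eventually.of_forall fun p => (k1.of_le (by simp)) p,
        rank_diffeo (k2 t) x⟩⟩⟩
    obtain ⟨Φ, hΦ⟩ := k2 t
    have h : (fun x => K (t, x)) = Φ := (funext hΦ).symm
    rw [h]
    exact Φ.bijective
  · rintro ⟨f, ⟨h1, h2, h3, h4⟩, hc⟩
    have e0 : (fun x => f (0, x)) = φ := funext h3
    have e1 : (fun x => f (1, x)) = ψ := funext h4
    have := Pool.Agent.Results.MP_28b04d_gt.C1Isotopy.result m (S m) (S m) f
      ⟨h1, h2, e0 ▸ hφ, e1 ▸ hψ⟩ hc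
    rw [e0, e1] at this
    exact this.2

/-- as a diffeomorphism of the manifold `ℝ^(m + 1)` -/
theorem IsBallDiffeo.isDiffeo {m : ℕ} {r : ℝ} {φ : R (m + 1) → R (m + 1)}
    (h : IsBallDiffeo m r φ) : IsDiffeo m φ := by
  obtain ⟨h1, ⟨g, g1, g2, g3⟩, -⟩ := h
  exact ⟨⟨⟨φ, g, g2, g3⟩, h1.contMDiff, g1.contMDiff⟩, fun x => rfl⟩

theorem IsBallDiffeo.mono {m : ℕ} {r r' : ℝ} {φ : R (m + 1) → R (m + 1)}
    (h : IsBallDiffeo m r φ) (hr : r ≤ r') : IsBallDiffeo m r' φ :=
  ⟨h.1, h.2.1, fun x hx => h.2.2 x (hr.trans_lt hx)⟩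

theorem contDiff_of_prod {m : ℕ} {K : ℝ × R (m + 1) → R (m + 1)}
    (h : ContMDiff ((𝓘(ℝ, ℝ)).prod (𝓡 (m + 1))) (𝓡 (m + 1)) ∞ K) : ContDiff ℝ ∞ K := by
  rw [← contMDiff_iff_contDiff, modelWithCornersSelf_prod, ← chartedSpaceSelf_prod]
  exact h

theorem prod_of_contDiff {m : ℕ} {K : ℝ × R (m + 1) → R (m + 1)} (h : ContDiff ℝ 1 K) :
    ContMDiff ((𝓘(ℝ, ℝ)).prod (𝓡 (m + 1))) (𝓡 (m + 1)) 1 K := by
  rw [← contMDiff_iff_contDiff, modelWithCornersSelf_prod, ← chartedSpaceSelf_prod] at h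
  exact h

theorem general {m : ℕ} {J : Type} {U : J → Set (R (m + 1))} {Q : J → R (m + 1) → R m}
    (hQ : Run7.h7.Fam m U Q) {φ ψ : R (m + 1) → R (m + 1)} (hφ : RelBoundary m φ)
    (hψ : RelBoundary m ψ) {r : ℝ} (hr : r < 1) {f : ℝ × R (m + 1) → R (m + 1)}
    (hf : IsBallPath m r φ ψ f)
    (hc : ∀ t ∈ Icc (0 : ℝ) 1, ∀ x, ‖x‖ ≤ r → C1CorankOne m f t x ∨
      ∃ j, f (t, x) ∈ U j ∧ Run7.h7.SubT m (Q j) f t x)
    {θ : ℝ → ℝ} (hθ : IsStep θ) {ε : ℝ} (hε : 0 < ε) :
    ∃ K, IsIsotopy m φ ψ K ∧ ∀ s x, ‖K (s, x) - f (θ s, x)‖ < ε := by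
  obtain ⟨t1, t2, a, b, ha, hb1, t3, t4⟩ := hθ
  obtain ⟨f1, f2, f3, f4⟩ := hf
  obtain ⟨_, -, d0⟩ := hφ
  obtain ⟨_, -, d1⟩ := hψ
  obtain ⟨Φ, e0⟩ := d0.isDiffeo
  obtain ⟨Ψ, e1⟩ := d1.isDiffeo
  have e0' : (fun x => f (0, x)) = Φ := funext fun x => (f3 x).trans (e0 x).symm
  have e1' : (fun x => f (1, x)) = Ψ := funext fun x => (f4 x).trans (e1 x).symm
  obtain ⟨r', hr1, hr2⟩ := exists_between hr
  have hθc : Continuous fun p : (ℝ × R (m + 1)) × R (m + 1) => f (θ p.1.1, p.1.2) :=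
    f1.comp ((t1.continuous.comp (continuous_fst.comp continuous_fst)).prodMk
      (continuous_snd.comp continuous_fst))
  have hO : IsOpen {p : (ℝ × R (m + 1)) × R (m + 1) | ‖p.2 - f (θ p.1.1, p.1.2)‖ < ε} :=
    isOpen_lt (continuous_snd.sub hθc).norm continuous_const
  have h01 : (0 : ℝ) ∈ Icc (0 : ℝ) 1 := ⟨le_rfl, zero_le_one⟩
  obtain ⟨K, k1, k2, k3, k4, k5⟩ := Run7.h7.iso_main (m := m) f f1 (fun t ht => (f2 t ht).1)
    (isCompact_closedBall (0 : R (m + 1)) r) (fun t ht x hx => by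
      have hx' : r < ‖x‖ := by simpa using hx
      rw [(f2 t ht).2 x hx', (f2 0 h01).2 x hx'])
    (isOpen_ball (x := (0 : R (m + 1))) (ε := r')) (closedBall_subset_ball hr1)
    (fun x => by rw [e0']; exact Φ.isLocalDiffeomorph x)
    (fun x => by rw [e1']; exact Ψ.isLocalDiffeomorph x) hQ
    (fun t ht x hx => (hc t ht x (by simpa using hx)).imp (fun h => ⟨h.1.self_of_nhds, h.2⟩) id)
    t1 t2 ha hb1 (fun s hs => t3 s hs.le) (fun s hs => t4 s hs.le) hO (fun s x => by
      show ‖f (θ s, x) - f (θ s, x)‖ < ε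
      rw [sub_self, norm_zero]
      exact hε)
  refine ⟨K, ⟨contDiff_of_prod k1, ⟨r', hr2, fun t => ?_⟩, fun x => ?_, fun x => ?_⟩, k5⟩
  · have hl : IsLocalDiffeomorph (𝓡 (m + 1)) (𝓡 (m + 1)) ∞ (fun x => K (t, x)) := k3 t
    obtain ⟨D, hD⟩ : ∃ D : R (m + 1) ≃ₘ^∞⟮𝓡 (m + 1), 𝓡 (m + 1)⟯ R (m + 1),
        (D : R (m + 1) → R (m + 1)) = fun x => K (t, x) :=
      ⟨hl.diffeomorphOfBijective (k2 t), rfl⟩
    rw [← hD]
    refine ⟨D.contMDiff.contDiff, ⟨D.symm, D.symm.contMDiff.contDiff, D.symm_apply_apply,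
      D.apply_symm_apply⟩, fun x hx => ?_⟩
    rw [hD]
    show K (t, x) = x
    rw [k4 t x (Or.inr (by
      rw [mem_ball_zero_iff, not_lt]
      exact hx.le))]
    exact (f2 _ (t2 t)).2 x (hr1.trans hx)
  · rw [k4 0 x (Or.inl fun h => lt_irrefl _ h.1), t3 0 ha.le, f3]
  · rw [k4 1 x (Or.inl fun h => lt_irrefl _ h.2), t4 1 hb1.le, f4]

theorem limits (m : ℕ) : Limits m := by
  intro φ ψ hφ hψ r hr f hf hc θ hθ ε hε
  rcases hc with ⟨𝓕, hc⟩ | ⟨B, _, _, _, q, hc⟩
  · exact general (Pool.Agent.Results.MP_28b04d_gt.C1Isotopy.fam 𝓕) hφ hψ hr hf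
      (fun t ht x hx => (hc t ht x hx).imp id fun ⟨j, h1, h2, h3⟩ => ⟨j, h1, h2.self_of_nhds, h3⟩)
      hθ hε
  · exact general (Run7.h7.famB q) hφ hψ hr hf (fun t ht x hx => (hc t ht x hx).imp id
      fun h => ⟨q (f (t, x)), h.mem⟩) hθ hε

theorem ballIff (m : ℕ) : Ball m := by
  intro φ ψ hφ hψ
  constructor
  · rintro ⟨K, k1, ⟨r, hr, k2⟩, k3, k4⟩
    refine ⟨r, hr, K, ⟨k1.continuous, fun t _ => ⟨?_, (k2 t).2.2⟩, k3, k4⟩,
      Or.inl ⟨noFamily m _, fun t _ x _ => Or.inl
        ⟨Filter.Eventually.of_forall fun p => prod_of_contDiff (k1.of_le (by simp)) p,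
          rank_diffeo (k2 t).isDiffeo x⟩⟩⟩
    obtain ⟨-, ⟨g, -, g2, g3⟩, -⟩ := k2 t
    exact ⟨g2.injective, g3.surjective⟩
  · rintro ⟨r, hr, f, hf, hc⟩
    obtain ⟨θ, hθ⟩ := Pool.Agent.Results.MP_28b04d_gt.C1Isotopy.exists_step
    obtain ⟨K, hK, -⟩ := limits m φ ψ hφ hψ r hr f hf hc θ hθ 1 one_pos
    exact ⟨K, hK⟩

open Run7.h7.Alex in
theorem oneSingularPoint (m : ℕ) : OneSingularPoint m := by
  rintro φ ⟨r₀, hr₀, h1, ⟨g, g1, g2, g3⟩, h2⟩
  obtain ⟨r, hr0, hr⟩ : ∃ r, max r₀ 0 < r ∧ r < 1 := exists_between (max_lt hr₀ one_pos)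
  have hrr : r₀ < r := (le_max_left _ _).trans_lt hr0
  have hr1 : 0 < r := (le_max_right _ _).trans_lt hr0
  have hφ : ∀ x, r < ‖x‖ → φ x = x := fun x hx => h2 x (hrr.trans hx)
  have hg : ∀ x, r < ‖x‖ → g x = x := fun x hx => by
    have := g2 x
    rwa [hφ x hx] at this
  -- bounded displacement
  obtain ⟨D, hD⟩ : ∃ D, ∀ x, ‖φ x - x‖ ≤ D := by
    obtain ⟨D, hD⟩ := (isCompact_closedBall (0 : R (m + 1)) r).exists_bound_of_continuousOn
      ((h1.continuous.sub continuous_id).continuousOn)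
    refine ⟨max D 0, fun x => ?_⟩
    by_cases hx : r < ‖x‖
    · rw [hφ x hx, sub_self, norm_zero]
      exact le_max_right _ _
    · exact (hD x (by simpa using not_lt.1 hx)).trans (le_max_left _ _)
  have hfar : ∀ t ∈ Icc (0 : ℝ) 1, ∀ x, r < ‖x‖ → alex φ (t, x) = x := fun t ht x hx =>
    alex_far hφ (Or.inr (lt_of_le_of_lt (mul_le_of_le_one_right hr1.le ht.2) hx))
  refine ⟨r, hr, alex φ, ⟨alex_continuous h1 hD, fun t ht => ⟨⟨(alex_comp g2).injective,
    (alex_comp g3).surjective⟩, hfar t ht⟩, fun x => alex_of_nonpos φ le_rfl x, alex_one φ⟩,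
    fun t ht => ⟨alex_slice h1 t, ⟨_, alex_slice g1 t, alex_comp g2, alex_comp g3⟩, hfar t ht⟩,
    fun t ht x hx => alex_smooth h1 hr1.le hφ ht.1 hx⟩

/-- **Isotopies of diffeomorphisms of the sphere and of the ball, and paths of homeomorphisms with and
without a singular point.** -/
theorem result (m : ℕ) : Sphere m ∧ Ball m ∧ Limits m ∧ OneSingularPoint m :=
  ⟨sphere m, ballIff m, limits m, oneSingularPoint m⟩

end Pool.Agent.Results.MP_0eed2b_gt.RoughIsotopies
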